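import Pool.Agent.K3h91.OSC.System

/-!
Deterministic online set cover on set systems with `n` points, at most `n` sets and VC-dimension
at most 2 has competitive ratio of order at least `log ^ 2 n`.

The system is the dual of the one used for online hitting set: the points are the indices of the
sets of that system and the sets are its points.
-/

set_option autoImplicit false

namespace Pool.Agent.Results.MP_ba67f2_lc.SetCoverLower

open Finset

/-- An input of the online set cover problem on the set system `(Fin n, 𝒮)`: a list of points, in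
their order of arrival, each of which lies in a member of `𝒮`. -/
def IsInput {n : ℕ} (𝒮 : Finset (Finset (Fin n))) (h : List (Fin n)) : Prop :=
  ∀ p ∈ h, ∃ s ∈ 𝒮, p ∈ s

/-- The sets of the family `𝒞` cover all points of the list `h`. -/
def Covers {n : ℕ} (𝒞 : Finset (Finset (Fin n))) (h : List (Fin n)) : Prop :=
  ∀ p ∈ h, ∃ s ∈ 𝒞, p ∈ s

/-- The minimum number of members of `𝒮` which cover the points of the list `h`. -/
noncomputable def opt {n : ℕ} (𝒮 : Finset (Finset (Fin n))) (h : List (Fin n)) : ℕ :=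
  sInf {k | ∃ 𝒞 : Finset (Finset (Fin n)), 𝒞 ⊆ 𝒮 ∧ Covers 𝒞 h ∧ 𝒞.card = k}

/-- A deterministic online algorithm for set cover on the set system `(Fin n, 𝒮)` (it may depend
on the whole system): `sel h` is the family of the members of `𝒮` selected once the points of the
list `h` have arrived in this order; selections are irrevocable, and after each arrival all arrived
points are covered. Any number of sets may be selected at any time. -/
structure OnlineAlg {n : ℕ} (𝒮 : Finset (Finset (Fin n))) where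
  /-- the selected sets after the arrival of the points in the list -/
  sel : List (Fin n) → Finset (Finset (Fin n))
  members : ∀ h, IsInput 𝒮 h → sel h ⊆ 𝒮
  irrevocable : ∀ h p, IsInput 𝒮 (h ++ [p]) → sel h ⊆ sel (h ++ [p])
  covers : ∀ h, IsInput 𝒮 h → Covers (sel h) h

lemma exists_min {n : ℕ} {𝒮 𝒞 : Finset (Finset (Fin n))} {h : List (Fin n)} (h1 : 𝒞 ⊆ 𝒮)
    (h2 : Covers 𝒞 h) : opt 𝒮 h ≤ 𝒞.card := Nat.sInf_le ⟨𝒞, h1, h2, rfl⟩

lemma opt_pos {n : ℕ} {𝒮 𝒞 : Finset (Finset (Fin n))} {h : List (Fin n)} (h1 : 𝒞 ⊆ 𝒮)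
    (h2 : Covers 𝒞 h) (hne : h ≠ []) : 0 < opt 𝒮 h := by
  have hmem : opt 𝒮 h ∈
      {k | ∃ 𝒞 : Finset (Finset (Fin n)), 𝒞 ⊆ 𝒮 ∧ Covers 𝒞 h ∧ 𝒞.card = k} :=
    Nat.sInf_mem ⟨𝒞.card, 𝒞, h1, h2, rfl⟩
  obtain ⟨𝒟, _, hD, hc⟩ := hmem
  rw [← hc, card_pos]
  obtain ⟨p, hp⟩ := List.exists_mem_of_ne_nil h hne
  obtain ⟨s, hs, _⟩ := hD p hp
  exact ⟨s, hs⟩

open Pool.Agent.K3h91.OSC in
/-- There are `c > 0` and `n₀` such that for every `n ≥ n₀` there is a set system with `n` points
and at most `n` sets, of VC-dimension at most 2, on which every deterministic online set cover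
algorithm has an input on which its cost is at least `c (log n) ^ 2` times the (positive)
optimum. -/
theorem result : ∃ c : ℝ, 0 < c ∧ ∃ n₀ : ℕ, ∀ n ≥ n₀,
    ∃ 𝒮 : Finset (Finset (Fin n)), 𝒮.card ≤ n ∧ 𝒮.vcDim ≤ 2 ∧
      ∀ A : OnlineAlg 𝒮, ∃ h, IsInput 𝒮 h ∧ 0 < opt 𝒮 h ∧
        c * (Real.log n) ^ 2 * opt 𝒮 h ≤ (A.sel h).card := by
  classical
  refine ⟨1 / 200000, by norm_num, 2 ^ 3500, fun n hn => ?_⟩
  obtain ⟨hx, hxn, hlog⟩ := log_bound (a := 3500) (by norm_num) hn
  set x := Nat.log 2 n / 3500 with hxdef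
  have hL : 0 < 48 * x := by omega
  obtain ⟨I, hnice, hrich, hIcard, hSne⟩ := exists_system hx hL
  have hq : 0 < 2 ^ (2000 * x) := by positivity
  have hn0 : 0 < n := lt_of_lt_of_le (by positivity) hxn
  obtain ⟨e⟩ : Nonempty ({j // j ∈ I} ↪ Fin n) := by
    apply Function.Embedding.nonempty_of_card_le
    rw [Fintype.card_coe, Fintype.card_fin]
    exact hIcard.trans hxn
  -- the position of an index
  let e' : J (48 * x) (2 ^ (2000 * x)) → Fin n := fun j =>
    if hj : j ∈ I then e ⟨j, hj⟩ else ⟨0, hn0⟩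
  have he' : ∀ j (hj : j ∈ I), e' j = e ⟨j, hj⟩ := fun j hj => dif_pos hj
  -- the sets
  let T : X (1000 * x) (2 ^ (2000 * x)) → Finset (Fin n) := fun p =>
    ((univ : Finset {j // j ∈ I}).filter (fun j => p ∈ S (H := 1000 * x) hL j.1)).map e
  have hT : ∀ p j (hj : j ∈ I), e' j ∈ T p ↔ p ∈ S hL j := by
    intro p j hj
    rw [he' j hj]
    simp [T]
  have hT2 : ∀ p y, y ∈ T p → ∃ j, j ∈ I ∧ e' j = y := by
    intro p y hy
    obtain ⟨j, _, rfl⟩ := mem_map.1 hy
    exact ⟨j.1, j.2, he' j.1 j.2⟩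
  have hinj : ∀ j ∈ I, ∀ j' ∈ I, e' j = e' j' → j = j' := by
    intro j hj j' hj' h
    rw [he' j hj, he' j' hj'] at h
    have := e.injective h
    simpa using this
  have hXcard : Fintype.card (X (1000 * x) (2 ^ (2000 * x))) ≤ n := by
    simp only [Fintype.card_prod, Fintype.card_fin]
    rw [← pow_add]
    refine le_trans (Nat.pow_le_pow_right (by norm_num) ?_) hxn
    omega
  refine ⟨univ.image T, card_image_le.trans (by rw [card_univ]; exact hXcard), ?_, ?_⟩
  · unfold vcDim
    refine Finset.sup_le fun s hs => ?_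
    rw [mem_shatterer] at hs
    by_contra hcon
    push Not at hcon
    obtain ⟨a, b, c, ha, hb, hc, hab, hac, hbc⟩ := two_lt_card_iff.1 hcon
    obtain ⟨u1, hu1, h1⟩ := hs (subset_refl s)
    obtain ⟨u2, hu2, h2⟩ := hs (show {a, b} ⊆ s by
      intro y hy; rw [mem_insert, mem_singleton] at hy; rcases hy with rfl | rfl <;> assumption)
    obtain ⟨u3, hu3, h3⟩ := hs (show {b, c} ⊆ s by
      intro y hy; rw [mem_insert, mem_singleton] at hy; rcases hy with rfl | rfl <;> assumption)
    rw [mem_image] at hu1 hu2 hu3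
    obtain ⟨p1, _, rfl⟩ := hu1
    obtain ⟨p2, _, rfl⟩ := hu2
    obtain ⟨p3, _, rfl⟩ := hu3
    have key1 : ∀ y ∈ s, y ∈ T p1 := by
      intro y hy
      rw [← h1] at hy
      exact (mem_inter.1 hy).2
    have key2 : ∀ y ∈ s, (y ∈ T p2 ↔ y = a ∨ y = b) := by
      intro y hy
      have : y ∈ s ∩ T p2 ↔ y ∈ ({a, b} : Finset (Fin n)) := by rw [h2]
      simpa [hy] using this
    have key3 : ∀ y ∈ s, (y ∈ T p3 ↔ y = b ∨ y = c) := by
      intro y hy
      have : y ∈ s ∩ T p3 ↔ y ∈ ({b, c} : Finset (Fin n)) := by rw [h3]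
      simpa [hy] using this
    obtain ⟨ja, hja, rfl⟩ := hT2 p1 a (key1 a ha)
    obtain ⟨jb, hjb, rfl⟩ := hT2 p1 b (key1 b hb)
    obtain ⟨jc, hjc, rfl⟩ := hT2 p1 c (key1 c hc)
    refine dvc3 (H := 1000 * x) (hL := hL) hnice hja hjb hjc (fun h => hab (by rw [h]))
      (fun h => hbc (by rw [h]))
      ((hT _ _ hja).1 (key1 _ ha)) ((hT _ _ hjb).1 (key1 _ hb)) ((hT _ _ hjc).1 (key1 _ hc))
      ((hT _ _ hja).1 ((key2 _ ha).2 (Or.inl rfl))) ((hT _ _ hjb).1 ((key2 _ hb).2 (Or.inr rfl))) ?_
      ?_ ((hT _ _ hjb).1 ((key3 _ hb).2 (Or.inl rfl))) ((hT _ _ hjc).1 ((key3 _ hc).2 (Or.inr rfl)))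
    · intro hmem
      rcases (key2 _ hc).1 ((hT _ _ hjc).2 hmem) with h | h
      · exact hac h.symm
      · exact hbc h.symm
    · intro hmem
      rcases (key3 _ ha).1 ((hT _ _ hja).2 hmem) with h | h
      · exact hab h
      · exact hac h
  · intro A
    have hz0 : Nonempty (X (1000 * x) (2 ^ (2000 * x))) :=
      ⟨(⟨0, hq⟩, ⟨0, by positivity⟩)⟩
    -- a representative of a set
    let rep : Finset (Fin n) → X (1000 * x) (2 ^ (2000 * x)) := fun s =>
      if hs : ∃ p, T p = s then hs.choose else hz0.some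
    have hrep : ∀ s ∈ univ.image T, T (rep s) = s := by
      intro s hs
      obtain ⟨p, _, hp⟩ := mem_image.1 hs
      have h1 : ∃ p, T p = s := ⟨p, hp⟩
      have h2 : rep s = h1.choose := dif_pos h1
      rw [h2]
      exact h1.choose_spec
    let alg : List (J (48 * x) (2 ^ (2000 * x))) → Finset (X (1000 * x) (2 ^ (2000 * x))) :=
      fun h => (A.sel (h.map e')).image rep
    have hinput : ∀ h : List (J (48 * x) (2 ^ (2000 * x))), (∀ j ∈ h, j ∈ I) →
        IsInput (univ.image T) (h.map e') := by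
      intro h h1 y hy
      rw [List.mem_map] at hy
      obtain ⟨j, hj, rfl⟩ := hy
      obtain ⟨p, hp⟩ := hSne j (h1 j hj)
      exact ⟨T p, mem_image_of_mem _ (mem_univ _), (hT p j (h1 j hj)).2 hp⟩
    have halg : Alg hL I alg := by
      constructor
      · intro h j hh hj
        refine image_subset_image ?_
        rw [List.map_append]
        refine A.irrevocable (h.map e') (e' j) ?_
        have := hinput (h ++ [j]) (by
          intro i hi
          rw [List.mem_append, List.mem_singleton] at hi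
          rcases hi with hi | rfl
          · exact hh i hi
          · exact hj)
        rw [List.map_append] at this
        exact this
      · intro h hh j hj
        obtain ⟨s, hs1, hs2⟩ := A.covers (h.map e') (hinput h hh) (e' j) (List.mem_map_of_mem hj)
        have hs3 := A.members (h.map e') (hinput h hh) hs1
        refine ⟨rep s, mem_image_of_mem _ hs1, ?_⟩
        rw [← hT _ j (hh j hj), hrep s hs3]
        exact hs2
    obtain ⟨h, hne, hhI, ⟨z, hz⟩, hcost⟩ := core hx hL hq hrich halg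
    have hcov : Covers ((univ : Finset (Fin (2 ^ (2000 * x)))).image
        (fun i => T (i, z))) (h.map e') := by
      intro y hy
      rw [List.mem_map] at hy
      obtain ⟨j, hj, rfl⟩ := hy
      obtain ⟨i, hi⟩ := hz j hj
      exact ⟨T (i, z), mem_image_of_mem _ (mem_univ _), (hT _ _ (hhI j hj)).2 hi⟩
    have hsub : (univ : Finset (Fin (2 ^ (2000 * x)))).image (fun i => T (i, z)) ⊆
        univ.image T := by
      intro s hs
      obtain ⟨i, _, rfl⟩ := mem_image.1 hs
      exact mem_image_of_mem _ (mem_univ _)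
    have hopt : opt (univ.image T) (h.map e') ≤ 2 ^ (2000 * x) := by
      refine (exists_min hsub hcov).trans (card_image_le.trans ?_)
      rw [card_univ, Fintype.card_fin]
    refine ⟨h.map e', hinput h hhI, opt_pos hsub hcov (by simpa using hne), ?_⟩
    have hcard : (alg h).card ≤ (A.sel (h.map e')).card := card_image_le
    have hlog0 : 0 ≤ Real.log n := Real.log_natCast_nonneg n
    have hlog2 : (Real.log n) ^ 2 ≤ (7000 * x) ^ 2 := by
      refine pow_le_pow_left₀ hlog0 (hlog.trans (le_of_eq ?_)) 2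
      push_cast
      ring
    have hopt' : ((opt (univ.image T) (h.map e') : ℕ) : ℝ) ≤ ((2 ^ (2000 * x) : ℕ) : ℝ) := by
      exact_mod_cast hopt
    calc (1 / 200000 : ℝ) * (Real.log n) ^ 2 * (opt (univ.image T) (h.map e') : ℕ)
        ≤ 1 / 200000 * (7000 * x) ^ 2 * ((2 ^ (2000 * x) : ℕ) : ℝ) := by gcongr
      _ ≤ 488 * (x : ℝ) ^ 2 * ((2 ^ (2000 * x) : ℕ) : ℝ) := by
          refine mul_le_mul_of_nonneg_right ?_ (by positivity)
          nlinarith [sq_nonneg (x : ℝ)]
      _ = ((488 * x ^ 2 * 2 ^ (2000 * x) : ℕ) : ℝ) := by push_cast; ring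
      _ ≤ ((alg h).card : ℝ) := by exact_mod_cast hcost
      _ ≤ ((A.sel (h.map e')).card : ℝ) := by exact_mod_cast hcard

end Pool.Agent.Results.MP_ba67f2_lc.SetCoverLower
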